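import Pool.Agent.H77.SS.Main

/-!
# Constant distortion subspace embeddings from sparse stacks

With absolute constants, the SparseStack with sparsity `ζ = O(log r)` and embedding dimension
`k = b ζ = O(r)` is an oblivious subspace embedding for the dimension `r` with constant distortion.

Method. Condition on the positions. The rows are then independent Rademacher sums `v`, with second
moment operators `C` that sum to the identity, `C ≤ 1 / ζ` and small trace. Starting from
`A = 1 / 2`, add `v vᵀ - (3 / 4) C` (lower bound), or `(3 / 2) C - v vᵀ` (upper bound), row by row.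
For a fixed vector `w`, the `p`-th moment of `⟨w, A⁻¹ w⟩` with `p` of the order of `log r` does not
increase as long as `C ≤ A / (48 p)` and `⟨v, A⁻¹ v⟩ ≤ 1 / 24`. This is applied to `w = v` and to a
Gaussian vector `w` with covariance `C`, and shows that the two conditions fail for a given row with
a probability that is a large negative power of `r`.
-/

namespace Pool.Agent.Results.MP_252e03_pr.ConstantDistortion

open Pool.Agent.H77.SS

/-- There are absolute constants `C` and `0 < α ≤ β` such that for all `r ≥ 2` and `n ≥ r` there are
`ζ, b ≥ 1` with `ζ ≤ C log r` and `b ζ ≤ C r` for which the SparseStack is an oblivious subspace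
embedding for the dimension `r` with parameters `α` and `β`. -/
theorem result : ∃ C α β : ℝ, 0 < α ∧ α ≤ β ∧ ∀ r n : ℕ, 2 ≤ r → r ≤ n →
    ∃ ζ b : ℕ, 1 ≤ ζ ∧ 1 ≤ b ∧ (ζ : ℝ) ≤ C * Real.log r ∧ ((b * ζ : ℕ) : ℝ) ≤ C * r ∧
      IsOSE n ζ b r α β :=
  main

end Pool.Agent.Results.MP_252e03_pr.ConstantDistortion
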